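import Pool.Agent.W79.ST.Basic

/-!
Project ST: existence of a layout.
-/

set_option autoImplicit false

namespace Pool.Agent.W143.ST.Lay

open Pool.Agent.W79.ST
open scoped Classical

/-- enumeration of a finite set with a given first element -/
theorem enum {X : Type} (S : Set X) (hS : S.Finite) (x0 : X) (h0 : x0 ∈ S) :
    ∃ f : ℕ → X, f 0 = x0 ∧ (∀ i < S.ncard, f i ∈ S) ∧
      (∀ i < S.ncard, ∀ j < S.ncard, f i = f j → i = j) ∧ (∀ s ∈ S, ∃ i < S.ncard, f i = s) := by
  have : Finite S := hS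
  have hc : Nat.card S = S.ncard := rfl
  have hpos : 0 < S.ncard := (Set.ncard_pos hS).2 ⟨x0, h0⟩
  let e0 : S ≃ Fin S.ncard := Finite.equivFinOfCardEq hc
  let e : S ≃ Fin S.ncard := e0.trans (Equiv.swap (e0 ⟨x0, h0⟩) ⟨0, hpos⟩)
  have he : e ⟨x0, h0⟩ = ⟨0, hpos⟩ := by
    simp [e]
  refine ⟨fun i => if h : i < S.ncard then (e.symm ⟨i, h⟩).1 else x0, ?_, ?_, ?_, ?_⟩
  · simp only [hpos, dif_pos]
    rw [← he, e.symm_apply_apply]
  · intro i hi
    simp only [hi, dif_pos]
    exact (e.symm ⟨i, hi⟩).2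
  · intro i hi j hj h
    simp only [hi, hj, dif_pos] at h
    have h1 := e.symm.injective (Subtype.ext h)
    exact congrArg Fin.val h1
  · intro s hs
    refine ⟨(e ⟨s, hs⟩).1, (e ⟨s, hs⟩).2, ?_⟩
    simp only [(e ⟨s, hs⟩).2, dif_pos]
    rw [show (⟨(e ⟨s, hs⟩).1, (e ⟨s, hs⟩).2⟩ : Fin S.ncard) = e ⟨s, hs⟩ from rfl,
      e.symm_apply_apply]

/-- the translates of one component -/
theorem trans_ex {V : Type} [Fintype V] (G : SimpleGraph V) (D : Subgroup (Equiv.Perm V))
    (hs : ∀ u x, Dif G D u x → Dif G D x u)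
    (hi : ∀ σ ∈ D, ∀ u x, Dif G D (σ u) (σ x) ↔ Dif G D u x) (u : V) :
    ∃ (m : ℕ) (δ : ℕ → Equiv.Perm V), δ 0 = 1 ∧ (∀ i, δ i ∈ D) ∧
      (∀ i < m, ∀ j < m, comp G D (δ i u) = comp G D (δ j u) → i = j) ∧
      (∀ σ ∈ D, ∃ i < m, comp G D (σ u) = comp G D (δ i u)) ∧
      os D u ≤ m * (comp G D u).ncard := by
  let S : Set (Set V) := {s | ∃ σ ∈ D, s = comp G D (σ u)}
  have hfin : S.Finite := Set.toFinite _
  have h0 : comp G D u ∈ S := ⟨1, D.one_mem, rfl⟩
  obtain ⟨f, hf0, hfS, hinj, hsurj⟩ := enum S hfin _ h0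
  have hch : ∀ i, ∃ σ ∈ D, i < S.ncard → f i = comp G D (σ u) := by
    intro i
    by_cases hlt : i < S.ncard
    · obtain ⟨σ, hσ, h⟩ := hfS i hlt
      exact ⟨σ, hσ, fun _ => h⟩
    · exact ⟨1, D.one_mem, fun h => absurd h hlt⟩
  choose δ hδ hδ2 using hch
  have hpos : 0 < S.ncard := (Set.ncard_pos hfin).2 ⟨_, h0⟩
  let δ' : ℕ → Equiv.Perm V := fun i => if i = 0 then 1 else δ i
  have hδ' : ∀ i, i < S.ncard → f i = comp G D (δ' i u) := by
    intro i hlt
    by_cases h : i = 0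
    · subst h
      simp only [δ', if_true]
      rw [hf0]
      rfl
    · simp only [δ', h, if_false]
      exact hδ2 i hlt
  have hδD : ∀ i, δ' i ∈ D := by
    intro i
    by_cases h : i = 0
    · simp only [δ', h, if_true]
      exact D.one_mem
    · simp only [δ', h, if_false]
      exact hδ i
  have hsur : ∀ σ ∈ D, ∃ i < S.ncard, comp G D (σ u) = comp G D (δ' i u) := by
    intro σ hσ
    obtain ⟨i, hlt, h⟩ := hsurj (comp G D (σ u)) ⟨σ, hσ, rfl⟩
    refine ⟨i, hlt, ?_⟩
    rw [← h, hδ' i hlt]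
  refine ⟨S.ncard, δ', by simp [δ'], hδD, ?_, hsur, ?_⟩
  · intro i hlt j hlt' h
    apply hinj i hlt j hlt'
    rw [hδ' i hlt, hδ' j hlt', h]
  · -- the orbit is covered by the translates
    have hcov : orb D u ⊆ ⋃ i ∈ Finset.range S.ncard, comp G D (δ' i u) := by
      rintro x ⟨σ, hσ, rfl⟩
      obtain ⟨i, hlt, h⟩ := hsur σ hσ
      rw [Set.mem_iUnion₂]
      refine ⟨i, Finset.mem_range.2 hlt, ?_⟩
      rw [← h]
      exact mem_comp_self G D _
    have hcard : ∀ i, (comp G D (δ' i u)).ncard ≤ (comp G D u).ncard := by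
      intro i
      have him : comp G D (δ' i u) ⊆ (δ' i) '' comp G D u := by
        intro x hx
        refine ⟨(δ' i).symm x, ?_, (δ' i).apply_symm_apply x⟩
        rw [← comp_apply hi (hδD i) u]
        rwa [(δ' i).apply_symm_apply]
      exact (Set.ncard_le_ncard him (Set.toFinite _)).trans (Set.ncard_image_le (Set.toFinite _))
    unfold os
    refine (Set.ncard_le_ncard hcov (Set.toFinite _)).trans ?_
    have hU : (⋃ i ∈ Finset.range S.ncard, comp G D (δ' i u)).ncard ≤
        ∑ i ∈ Finset.range S.ncard, (comp G D (δ' i u)).ncard := by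
      generalize Finset.range S.ncard = F
      induction F using Finset.induction_on with
      | empty => simp
      | insert a s ha ih =>
        rw [Finset.sum_insert ha, Finset.set_biUnion_insert]
        exact (Set.ncard_union_le _ _).trans (Nat.add_le_add_left ih _)
    refine hU.trans ?_
    calc ∑ i ∈ Finset.range S.ncard, (comp G D (δ' i u)).ncard
        ≤ ∑ i ∈ Finset.range S.ncard, (comp G D u).ncard := Finset.sum_le_sum fun i _ => hcard i
      _ = S.ncard * (comp G D u).ncard := by simp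

theorem main : S_BASE → S_LAY := by
  intro hB V _ G D hD hbig
  obtain ⟨hbs, hbi, hs, hi, hf⟩ := hB V G D hD
  have hinvapp : ∀ (σ : Equiv.Perm V) (x : V), σ⁻¹ (σ x) = x := fun σ x => σ.symm_apply_apply x
  let R : Setoid V :=
    { r := fun u v => ∃ σ ∈ D, σ u ∈ comp G D v
      iseqv :=
        { refl := fun u => ⟨1, D.one_mem, mem_comp_self G D u⟩
          symm := by
            rintro u v ⟨σ, hσ, h⟩
            refine ⟨σ⁻¹, D.inv_mem hσ, ?_⟩
            have h1 := (comp_apply hi (D.inv_mem hσ) (σ u) v).2 (comp_symm hs h)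
            rwa [hinvapp] at h1
          trans := by
            rintro u v w ⟨σ, hσ, h⟩ ⟨τ, hτ, h'⟩
            exact ⟨τ * σ, D.mul_mem hτ hσ, comp_trans h' ((comp_apply hi hτ v (σ u)).2 h)⟩ } }
  let r : V → V := fun u => (Quotient.mk R u).out
  have hr : ∀ u, ∃ σ ∈ D, σ (r u) ∈ comp G D u := fun u => Quotient.mk_out (s := R) u
  have hrr : ∀ u v, (∃ σ ∈ D, σ u ∈ comp G D v) → r u = r v := by
    intro u v h
    have h1 : Quotient.mk R u = Quotient.mk R v := Quotient.sound h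
    simp only [r, h1]
  choose m0 δ0 hδ0 hδD hδinj hδsur hos using fun u => trans_ex G D hs hi u
  refine ⟨{a | 2 ≤ os D a ∧ a ∈ comp G D (r a)}, fun a => m0 (r a), fun a => δ0 (r a), ?_⟩
  have hcc : ∀ u v : V, v ∈ comp G D u → comp G D v = comp G D u := fun u v h => comp_eq hs h
  constructor
  · exact fun a ha => ha.1
  · intro a ha b hb
    have hrb : r b = r a := hrr b a ⟨1, D.one_mem, hb⟩
    refine ⟨⟨two_le_os_of_mem_comp hs hf ha.1 hb, ?_⟩, ?_, ?_⟩
    · rw [hrb]
      exact comp_trans ha.2 hb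
    · simp only [hrb]
    · intro i
      simp only [hrb]
  · exact fun a ha i => hδD (r a) i
  · exact fun a ha => hδ0 (r a)
  · intro a ha b hb i hi' j hj h
    -- same class
    have hrab : r a = r b := by
      apply hrr
      refine ⟨(δ0 (r b) j)⁻¹ * δ0 (r a) i, D.mul_mem (D.inv_mem (hδD _ _)) (hδD _ _), ?_⟩
      have h1 := (comp_apply hi (D.inv_mem (hδD (r b) j)) (δ0 (r b) j b) (δ0 (r a) i a)).2 h
      rwa [hinvapp] at h1
    have hca : comp G D a = comp G D (r a) := hcc _ _ ha.2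
    have hcb : comp G D b = comp G D (r b) := hcc _ _ hb.2
    have e1 : comp G D (δ0 (r a) i a) = comp G D (δ0 (r a) i (r a)) :=
      hcc _ _ ((comp_apply hi (hδD _ _) _ _).2 ha.2)
    have e2 : comp G D (δ0 (r b) j b) = comp G D (δ0 (r b) j (r b)) :=
      hcc _ _ ((comp_apply hi (hδD _ _) _ _).2 hb.2)
    have e3 : comp G D (δ0 (r a) i a) = comp G D (δ0 (r b) j b) := hcc _ _ h
    refine ⟨?_, ?_⟩
    · apply hδinj (r a) i hi' j (by rw [hrab]; exact hj)
      rw [← e1, e3, e2, hrab]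
    · rw [hca, hrab, ← hcb]
      exact mem_comp_self G D b
  · intro u hu
    obtain ⟨σ, hσ, h⟩ := hr u
    obtain ⟨i, hi', hii⟩ := hδsur (r u) σ hσ
    -- u ∈ comp (σ r) = comp (δ i r)
    have h1 : u ∈ comp G D (δ0 (r u) i (r u)) := by
      rw [← hii]
      exact comp_symm hs h
    have h2 : (δ0 (r u) i)⁻¹ u ∈ comp G D (r u) := by
      have h3 := (comp_apply hi (D.inv_mem (hδD (r u) i)) (δ0 (r u) i (r u)) u).2 h1
      rwa [hinvapp] at h3
    have happ : δ0 (r u) i ((δ0 (r u) i)⁻¹ u) = u := (δ0 (r u) i).apply_symm_apply u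
    have hra : r ((δ0 (r u) i)⁻¹ u) = r u := by
      apply hrr
      exact ⟨δ0 (r u) i, hδD _ _, by rw [happ]; exact mem_comp_self G D u⟩
    refine ⟨(δ0 (r u) i)⁻¹ u, ⟨?_, ?_⟩, i, ?_, ?_⟩
    · rw [os_apply (D.inv_mem (hδD (r u) i))]
      exact hu
    · rw [hra]
      exact h2
    · simp only [hra]
      exact hi'
    · simp only [hra]
      exact happ
  · intro a ha b hb σ hσ h
    have hrab : r a = r b := hrr a b ⟨σ, hσ, h⟩
    have hca : comp G D a = comp G D (r a) := hcc _ _ ha.2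
    have hcb : comp G D b = comp G D (r b) := hcc _ _ hb.2
    rw [hca, hrab, ← hcb]
    exact mem_comp_self G D b
  · intro a ha
    have hca : comp G D a = comp G D (r a) := hcc _ _ ha.2
    have hra2 : 2 ≤ os D (r a) :=
      two_le_os_of_mem_comp hs hf ha.1 (comp_symm hs ha.2)
    have h1 := hbig (r a) hra2
    have h2 := hos (r a)
    have hpos : 0 < (comp G D (r a)).ncard :=
      (Set.ncard_pos (Set.toFinite _)).2 ⟨_, mem_comp_self G D _⟩
    have h3 : (comp G D (r a)).ncard + 3 < m0 (r a) := by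
      have h4 := h1.trans_le h2
      rw [mul_comm] at h4
      exact lt_of_mul_lt_mul_right h4 (Nat.zero_le _)
    refine ⟨?_, ?_⟩
    · show 3 ≤ m0 (r a)
      omega
    · show (comp G D a).ncard ≤ m0 (r a)
      rw [hca]
      omega

end Pool.Agent.W143.ST.Lay
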